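import Pool.Agent.W323.PT.Stm

set_option autoImplicit false

namespace Pool.Agent.W692.PT

open Pool.Agent.W323.PT

theorem lex : S_Lex := by
  intro S hS hne
  obtain ⟨a, haS, ha⟩ := hS.exists_isMinOn hne (continuous_fst.continuousOn)
  have hT : IsCompact (S ∩ {u : Pt | u.1 = a.1}) :=
    hS.inter_right (isClosed_eq continuous_fst continuous_const)
  obtain ⟨v, ⟨hvS, hva⟩, hv⟩ := hT.exists_isMinOn ⟨a, haS, rfl⟩ (continuous_snd.continuousOn)
  refine ⟨v, hvS, fun u hu => ?_⟩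
  have h1 : a.1 ≤ u.1 := ha hu
  have hva' : v.1 = a.1 := hva
  rcases h1.eq_or_lt with h | h
  · right
    exact ⟨by rw [hva', h], hv ⟨hu, h.symm⟩⟩
  · left
    rw [hva']; exact h

end Pool.Agent.W692.PT
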